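import Mathlib
import Pool.Agent.Helper203.Comp

set_option autoImplicit false

open Complex Metric Set Filter MeasureTheory
open scoped Real Topology ComplexConjugate NNReal ENNReal InnerProductSpace

namespace Pool.Agent.H743R2.NW

open Pool.Agent.Helper203.Hardy
open ContinuousLinearMap (adjoint)

section abstract

variable {H : Type*} [NormedAddCommGroup H] [InnerProductSpace ℂ H] [CompleteSpace H]

/-- For an injective normal operator `T` there is an isometry `W` with `W T = T*` and `T W = T*`. -/
theorem exists_W (T : H →L[ℂ] H) (hT : IsStarNormal T) (hinj : Function.Injective T) :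
    ∃ W : H →L[ℂ] H, (∀ x, ‖W x‖ = ‖x‖) ∧ W * T = adjoint T ∧ T * W = adjoint T := by
  have hn := ContinuousLinearMap.isStarNormal_iff_norm_eq_adjoint.1 hT
  have hdense : DenseRange (T : H → H) := by
    have h1 : (LinearMap.range (T : H →ₗ[ℂ] H)).topologicalClosure = ⊤ := by
      rw [Submodule.topologicalClosure_eq_top_iff]
      rw [Submodule.eq_bot_iff]
      intro x hx
      have h2 := ContinuousLinearMap.orthogonal_range T
      have h3 : x ∈ LinearMap.ker (adjoint T : H →ₗ[ℂ] H) := by
        rw [← h2]; exact hx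
      have h4 : ‖T x‖ = 0 := by
        rw [hn x]
        have : adjoint T x = 0 := h3
        rw [this, norm_zero]
      have h5 : T x = T 0 := by rw [map_zero]; exact norm_eq_zero.1 h4
      exact hinj h5
    intro x
    have h2 : x ∈ (LinearMap.range (T : H →ₗ[ℂ] H)).topologicalClosure := by rw [h1]; trivial
    exact h2
  set e : H →ₗ[ℂ] H := (T : H →ₗ[ℂ] H) with he
  set f : H →ₗ[ℂ] H := (adjoint T : H →ₗ[ℂ] H) with hf
  have hb : ∀ x, ‖f x‖ ≤ 1 * ‖e x‖ := fun x => by
    rw [one_mul]; exact (hn x).symm.le
  set W : H →L[ℂ] H := f.extendOfNorm e with hW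
  have hWT : ∀ x, W (T x) = adjoint T x := fun x =>
    LinearMap.extendOfNorm_eq (f := f) (e := e) hdense ⟨1, hb⟩ x
  have hiso : ∀ x, ‖W x‖ = ‖x‖ := by
    intro x
    refine hdense.induction_on (p := fun y => ‖W y‖ = ‖y‖) x ?_ ?_
    · exact isClosed_eq (by fun_prop) (by fun_prop)
    · intro y
      rw [hWT y, hn y]
  have hWW : adjoint W * W = 1 := (ContinuousLinearMap.norm_map_iff_adjoint_comp_self W).1 hiso
  have hWT' : W * T = adjoint T := by
    ext x; exact hWT x
  refine ⟨W, hiso, hWT', ?_⟩
  -- take adjoints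
  have h1 : adjoint T * adjoint W = T := by
    have := congrArg star hWT'
    rw [star_mul] at this
    simpa [ContinuousLinearMap.star_eq_adjoint] using this
  calc T * W = (adjoint T * adjoint W) * W := by rw [h1]
    _ = adjoint T := by rw [mul_assoc, hWW, mul_one]

end abstract

end Pool.Agent.H743R2.NW
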