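import Mathlib
import Pool.Agent.Helper203.Comp

set_option autoImplicit false

open Complex Metric Set Filter MeasureTheory
open scoped Real Topology ComplexConjugate NNReal ENNReal InnerProductSpace

namespace Pool.Agent.H743R2.NW

open Pool.Agent.Helper203.Hardy
open ContinuousLinearMap (adjoint)

/-! ### a two-sided Parseval identity -/

theorem prod_summable {a b : ℤ → ℂ} (ha : Summable fun n => ‖a n‖ ^ 2)
    (hb : Summable fun n => ‖b n‖ ^ 2) : Summable fun n => a n * conj (b n) := by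
  refine Summable.of_norm_bounded (ha.add hb) fun n => ?_
  rw [norm_mul, RCLike.norm_conj]
  nlinarith [sq_nonneg (‖a n‖ - ‖b n‖), sq_nonneg (‖a n‖), sq_nonneg (‖b n‖)]

theorem shift_sq_summable {g : ℤ → ℂ} (hg : Summable fun n => ‖g n‖ ^ 2) (k : ℤ) :
    Summable fun n => ‖g (n - k)‖ ^ 2 :=
  (Equiv.subRight k).summable_iff (f := fun n => ‖g n‖ ^ 2) |>.2 hg

theorem sq_expand (s : Finset ℕ) (p x : ℕ → ℂ) :
    ((‖∑ k ∈ s, p k * x k‖ ^ 2 : ℝ) : ℂ) =
      ∑ k ∈ s, ∑ l ∈ s, (p k * conj (p l)) * (x k * conj (x l)) := by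
  have h : ((‖∑ k ∈ s, p k * x k‖ ^ 2 : ℝ) : ℂ) =
      (∑ k ∈ s, p k * x k) * conj (∑ k ∈ s, p k * x k) := by
    rw [Complex.mul_conj, Complex.normSq_eq_norm_sq]
  rw [h, map_sum, Finset.sum_mul_sum]
  refine Finset.sum_congr rfl fun k _ => Finset.sum_congr rfl fun l _ => ?_
  rw [map_mul]
  ring

theorem gram_hasSum (g : ℤ → ℂ) (hg : Summable fun n => ‖g n‖ ^ 2) (s : Finset ℕ) (p : ℕ → ℂ) :
    ∃ S : ℝ, HasSum (fun n : ℤ => ‖∑ k ∈ s, p k * g (n - k)‖ ^ 2) S ∧
      HasSum (fun j : ℤ => ‖∑ k ∈ s, p k * conj (g (k - j))‖ ^ 2) S := by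
  set R : ℕ → ℕ → ℂ := fun k l => ∑' n : ℤ, g (n - k) * conj (g (n - l)) with hR
  have h1 : ∀ k l : ℕ, HasSum (fun n : ℤ => g (n - k) * conj (g (n - l))) (R k l) := fun k l =>
    (prod_summable (shift_sq_summable hg k) (shift_sq_summable hg l)).hasSum
  have h2 : ∀ k l : ℕ, HasSum (fun j : ℤ => conj (g (k - j)) * conj (conj (g (l - j)))) (R k l) := by
    intro k l
    have := (Equiv.subLeft ((k : ℤ) + l)).hasSum_iff.2 (h1 k l)
    convert this using 1
    funext j
    simp only [Function.comp, Equiv.subLeft_apply, Complex.conj_conj]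
    have e1 : (k : ℤ) + l - j - k = l - j := by ring
    have e2 : (k : ℤ) + l - j - l = k - j := by ring
    rw [e1, e2, mul_comm]
  set S : ℂ := ∑ k ∈ s, ∑ l ∈ s, (p k * conj (p l)) * R k l with hS
  have key : ∀ (x : ℤ → ℕ → ℂ), (∀ k l, HasSum (fun n => x n k * conj (x n l)) (R k l)) →
      HasSum (fun n : ℤ => ‖∑ k ∈ s, p k * x n k‖ ^ 2) S.re := by
    intro x hx
    have h3 : HasSum (fun n : ℤ => ((‖∑ k ∈ s, p k * x n k‖ ^ 2 : ℝ) : ℂ)) S := by
      simp only [sq_expand]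
      refine hasSum_sum fun k _ => hasSum_sum fun l _ => ?_
      exact (hx k l).mul_left _
    have h4 := Complex.reCLM.hasSum h3
    simpa only [Function.comp_def, Complex.reCLM_apply, Complex.ofReal_re] using h4
  exact ⟨S.re, key (fun n k => g (n - k)) h1, key (fun j k => conj (g (k - j))) h2⟩

/-- extension by zero of a sequence to `ℤ` -/
noncomputable def G (f : ℕ → ℂ) (n : ℤ) : ℂ := if 0 ≤ n then f n.toNat else 0

theorem G_nat (f : ℕ → ℂ) (n : ℕ) : G f n = f n := by simp [G]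

theorem G_neg (f : ℕ → ℂ) {n : ℤ} (hn : n < 0) : G f n = 0 := by
  rw [G, if_neg (by omega)]

theorem G_summable (f : H2) : Summable fun n : ℤ => ‖G f n‖ ^ 2 := by
  apply Summable.of_nat_of_neg_add_one
  · simpa [G_nat] using sq_summable f
  · have : ∀ n : ℕ, ‖G f (-((n : ℤ) + 1))‖ ^ 2 = 0 := by
      intro n
      rw [G_neg _ (by omega)]; simp
    simp only [this]
    exact summable_zero

/-- The coefficients of `z^j f`. -/
theorem Mz_pow_apply (f : H2) (j k : ℕ) : ((Mz ^ j) f) k = G f ((k : ℤ) - j) := by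
  induction j generalizing k with
  | zero => simp [G_nat]
  | succ j ih =>
    rw [pow_succ', mul_apply_eq_comp, Mz_apply]
    cases k with
    | zero =>
      rw [shiftFun, G_neg]
      push_cast; omega
    | succ k =>
      rw [shiftFun, ih]
      congr 1
      push_cast; ring

/-- the `n`-th basis vector -/
noncomputable abbrev e (n : ℕ) : H2 := lp.single 2 n (1 : ℂ)

theorem Mz_pow_e (n : ℕ) : (Mz ^ n) (e 0) = e n := by
  induction n with
  | zero => simp
  | succ n ih => rw [pow_succ', mul_apply_eq_comp, ih, Mz_single]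

theorem inner_e (n : ℕ) (f : H2) : ⟪e n, f⟫_ℂ = f n := by
  rw [lp.inner_single_left]; simp

section comm

variable {X : H2 →L[ℂ] H2} (hX : X * Mz = Mz * X)

include hX

theorem comm_pow (n : ℕ) : X * Mz ^ n = Mz ^ n * X :=
  (Commute.pow_right (show Commute X Mz from hX) n)

theorem X_e (n : ℕ) : X (e n) = (Mz ^ n) (X (e 0)) := by
  rw [← Mz_pow_e n, ← mul_apply_eq_comp, ← mul_apply_eq_comp, comm_pow hX]

theorem X_pol (s : Finset ℕ) (p : ℕ → ℂ) (n : ℕ) :
    (X (∑ k ∈ s, p k • e k)) n = ∑ k ∈ s, p k * G (X (e 0)) ((n : ℤ) - k) := by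
  rw [map_sum, lp.coeFn_sum, Finset.sum_apply]
  refine Finset.sum_congr rfl fun k _ => ?_
  rw [map_smul, lp.coeFn_smul, Pi.smul_apply, smul_eq_mul, X_e hX, Mz_pow_apply]

theorem Xadj_pol (s : Finset ℕ) (p : ℕ → ℂ) (j : ℕ) :
    (adjoint X (∑ k ∈ s, p k • e k)) j = ∑ k ∈ s, p k * conj (G (X (e 0)) ((k : ℤ) - j)) := by
  rw [← inner_e, ContinuousLinearMap.adjoint_inner_right, inner_sum]
  refine Finset.sum_congr rfl fun k _ => ?_
  rw [inner_smul_right, X_e hX, ← inner_conj_symm, inner_e, Mz_pow_apply]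

/-- The Hankel part identity: `‖X p‖² = ‖X* p‖² + ‖Hankel part‖²` for polynomials `p`. -/
theorem hyp_id (s : Finset ℕ) (p : ℕ → ℂ) :
    HasSum (fun j : ℕ => ‖∑ k ∈ s, p k * conj ((X (e 0)) (k + j + 1))‖ ^ 2)
      (‖X (∑ k ∈ s, p k • e k)‖ ^ 2 - ‖adjoint X (∑ k ∈ s, p k • e k)‖ ^ 2) := by
  set P : H2 := ∑ k ∈ s, p k • e k with hP
  set γ : H2 := X (e 0) with hγ
  obtain ⟨S, h1, h2⟩ := gram_hasSum (G γ) (G_summable γ) s p
  -- first sum
  have h3 : HasSum (fun n : ℕ => ‖(X P) n‖ ^ 2) S := by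
    have h4 : HasSum ((fun n : ℤ => ‖∑ k ∈ s, p k * G γ (n - k)‖ ^ 2) ∘ (Nat.cast : ℕ → ℤ)) S := by
      rw [Function.Injective.hasSum_iff Nat.cast_injective]
      · exact h1
      · intro x hx
        have hx' : x < 0 := by
          by_contra hc
          push Not at hc
          exact hx ⟨x.toNat, by simpa using hc⟩
        have : ∀ k ∈ s, p k * G γ (x - k) = 0 := by
          intro k _
          rw [G_neg _ (by omega), mul_zero]
        rw [Finset.sum_congr rfl this]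
        simp
    convert h4 using 1
    funext n
    simp only [Function.comp, hP]
    rw [X_pol hX]
  have h3' : ‖X P‖ ^ 2 = S := by rw [norm_sq, h3.tsum_eq]
  -- second sum
  have h5 : HasSum (fun n : ℕ => ‖(adjoint X P) n‖ ^ 2) (‖adjoint X P‖ ^ 2) := by
    rw [norm_sq]; exact (sq_summable _).hasSum
  have hkey : ∀ j k : ℕ, G γ ((k : ℤ) - -((j : ℤ) + 1)) = γ (k + j + 1) := by
    intro j k
    have e1 : (k : ℤ) - -((j : ℤ) + 1) = ((k + j + 1 : ℕ) : ℤ) := by push_cast; ring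
    rw [e1, G_nat]
  have h6 : Summable fun j : ℕ => ‖∑ k ∈ s, p k * conj (γ (k + j + 1))‖ ^ 2 := by
    have h7 := h2.summable.comp_injective (i := fun j : ℕ => -((j : ℤ) + 1))
      (fun a b hab => by simpa using hab)
    simpa only [Function.comp_def, hkey] using h7
  have h8 := HasSum.of_nat_of_neg_add_one (f := fun j : ℤ => ‖∑ k ∈ s, p k * conj (G γ (k - j))‖ ^ 2)
    (m := ‖adjoint X P‖ ^ 2) (m' := ∑' j : ℕ, ‖∑ k ∈ s, p k * conj (γ (k + j + 1))‖ ^ 2) (by
      convert h5 using 1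
      funext n
      rw [hP, Xadj_pol hX]) (by
      simpa only [hkey] using h6.hasSum)
  have h9 := h8.unique h2
  have h10 : ‖X P‖ ^ 2 - ‖adjoint X P‖ ^ 2 =
      ∑' j : ℕ, ‖∑ k ∈ s, p k * conj (γ (k + j + 1))‖ ^ 2 := by
    rw [h3']; linarith
  rw [h10]
  exact h6.hasSum

/-- Operators commuting with the shift are hyponormal. -/
theorem hyp_le (f : H2) : ‖adjoint X f‖ ≤ ‖X f‖ := by
  have h1 : ∀ s : Finset ℕ, ‖adjoint X (∑ k ∈ s, f k • e k)‖ ≤ ‖X (∑ k ∈ s, f k • e k)‖ := by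
    intro s
    have h2 := hyp_id hX s f
    have h3 : 0 ≤ ‖X (∑ k ∈ s, f k • e k)‖ ^ 2 - ‖adjoint X (∑ k ∈ s, f k • e k)‖ ^ 2 :=
      h2.nonneg fun j => by positivity
    exact le_of_sq_le_sq (by linarith) (norm_nonneg _)
  have h4 : Tendsto (fun s : Finset ℕ => ∑ k ∈ s, f k • e k) atTop (𝓝 f) := by
    have := lp.hasSum_single (p := 2) (by norm_num) f
    refine this.congr fun s => ?_
    refine Finset.sum_congr rfl fun k _ => ?_
    ext j
    by_cases hj : j = k
    · subst hj; simp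
    · rw [lp.single_apply_ne _ _ _ hj, lp.coeFn_smul, Pi.smul_apply, lp.single_apply_ne _ _ _ hj,
        smul_zero]
  exact le_of_tendsto_of_tendsto' (((adjoint X).continuous.tendsto f).comp h4).norm
    ((X.continuous.tendsto f).comp h4).norm h1

end comm

end Pool.Agent.H743R2.NW
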