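import Mathlib
import Pool.Agent.H743R2.NW1
import Pool.Agent.H743R2.NW2

set_option autoImplicit false

open Complex Metric Set Filter MeasureTheory
open scoped Real Topology ComplexConjugate NNReal ENNReal InnerProductSpace

namespace Pool.Agent.H743R2.NW

open Pool.Agent.Helper203.Hardy
open ContinuousLinearMap (adjoint)

theorem adj_mul (A B : H2 →L[ℂ] H2) : adjoint (A * B) = adjoint B * adjoint A := star_mul A B

theorem adj_adj (A : H2 →L[ℂ] H2) : adjoint (adjoint A) = A := star_star A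

theorem adj_one : adjoint (1 : H2 →L[ℂ] H2) = 1 := star_one _

theorem adjMz_Mz : adjoint Mz * Mz = 1 :=
  (ContinuousLinearMap.norm_map_iff_adjoint_comp_self Mz).1 Mz_norm

theorem Mz_adjMz {x : H2} (hx : x 0 = 0) : Mz (adjoint Mz x) = x := by
  ext n
  rw [Mz_apply]
  cases n with
  | zero => rw [shiftFun, hx]
  | succ n => rw [shiftFun, adj_Mz]

theorem Mz_opNorm : ‖Mz‖ ≤ 1 :=
  ContinuousLinearMap.opNorm_le_bound _ zero_le_one fun x => by rw [one_mul, Mz_norm]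

/-- Two linear conditions on the coefficients of a quadratic polynomial. -/
theorem exists_pol (a c : H2) :
    ∃ p : ℕ → ℂ, (∃ k < 3, p k ≠ 0) ∧ ⟪a, ∑ k ∈ Finset.range 3, p k • e k⟫_ℂ = 0 ∧
      ⟪c, ∑ k ∈ Finset.range 3, p k • e k⟫_ℂ = 0 := by
  set A : Matrix (Fin 2) (Fin 3) ℂ :=
    fun i k => if i = 0 then ⟪a, e k⟫_ℂ else ⟪c, e k⟫_ℂ with hA
  have h1 : LinearMap.ker (Matrix.mulVecLin A) ≠ ⊥ := by
    apply LinearMap.ker_ne_bot_of_finrank_lt
    simp
  obtain ⟨q, hq, hq0⟩ := Submodule.exists_mem_ne_zero_of_ne_bot h1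
  have hq1 : A.mulVec q = 0 := by simpa using hq
  have hq2 := congrFun hq1 0
  have hq3 := congrFun hq1 1
  simp only [Matrix.mulVec, dotProduct, Fin.sum_univ_three, Pi.zero_apply, hA] at hq2 hq3
  simp only [if_true, one_ne_zero, if_false, Fin.isValue] at hq2 hq3
  refine ⟨fun k => if h : k < 3 then q ⟨k, h⟩ else 0, ?_, ?_, ?_⟩
  · by_contra hcon
    push Not at hcon
    apply hq0
    ext i
    have := hcon i.1 i.2
    simpa [i.2] using this
  · rw [Finset.sum_range_succ, Finset.sum_range_succ, Finset.sum_range_one]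
    simp only [inner_add_right, inner_smul_right]
    simp only [show (0 : ℕ) < 3 by norm_num, show (1 : ℕ) < 3 by norm_num,
      show (2 : ℕ) < 3 by norm_num, dif_pos]
    rw [← hq2]
    simp [mul_comm]
  · rw [Finset.sum_range_succ, Finset.sum_range_succ, Finset.sum_range_one]
    simp only [inner_add_right, inner_smul_right]
    simp only [show (0 : ℕ) < 3 by norm_num, show (1 : ℕ) < 3 by norm_num,
      show (2 : ℕ) < 3 by norm_num, dif_pos]
    rw [← hq3]
    simp [mul_comm]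

/-- from equality of norms to the recurrence -/
theorem recurrence {X : H2 →L[ℂ] H2} (hX : X * Mz = Mz * X) (s : Finset ℕ) (p : ℕ → ℂ)
    (h : ‖X (∑ k ∈ s, p k • e k)‖ ≤ ‖adjoint X (∑ k ∈ s, p k • e k)‖) (j : ℕ) :
    ∑ k ∈ s, p k * conj ((X (e 0)) (k + j + 1)) = 0 := by
  have h1 := hyp_id hX s p
  have h2 : ‖X (∑ k ∈ s, p k • e k)‖ ^ 2 - ‖adjoint X (∑ k ∈ s, p k • e k)‖ ^ 2 ≤ 0 := by
    have := pow_le_pow_left₀ (norm_nonneg _) h 2
    linarith
  have h3 := le_hasSum h1 j (fun i _ => by positivity)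
  have h4 : ‖∑ k ∈ s, p k * conj ((X (e 0)) (k + j + 1))‖ ^ 2 = 0 :=
    le_antisymm (h3.trans h2) (by positivity)
  exact norm_eq_zero.1 (pow_eq_zero_iff (two_ne_zero) |>.1 h4)

theorem core (T M : H2 →L[ℂ] H2) (hT : IsStarNormal T) (hTi : Function.Injective T)
    (hTM : T * Mz = M * T) (hM : M * Mz = Mz * M) {b : ℂ} (hb : ‖b‖ < 1)
    (hb0 : ∀ f : H2, (M f) 0 = b * f 0) :
    ∃ Y : H2 →L[ℂ] H2, Y * Mz = Mz * Y ∧
      T * (Y * (1 - conj b • Mz)) = adjoint Mz * ((M - b • (1 : H2 →L[ℂ] H2)) * T) ∧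
      (∃ p : ℕ → ℂ, (∃ k < 3, p k ≠ 0) ∧
        ∀ j : ℕ, ∑ k ∈ Finset.range 3, p k * conj ((Y (e 0)) (k + j + 1)) = 0) ∧
      (∃ p : ℕ → ℂ, (∃ k < 3, p k ≠ 0) ∧
        ∀ j : ℕ, ∑ k ∈ Finset.range 3, p k * conj ((M (e 0)) (k + j + 1)) = 0) := by
  obtain ⟨W, hWn, hWT, hTW⟩ := exists_W T hT hTi
  have hWW : adjoint W * W = 1 := (ContinuousLinearMap.norm_map_iff_adjoint_comp_self W).1 hWn
  set B : H2 →L[ℂ] H2 := W * (adjoint M * adjoint W) with hB
  have hTB : T * B = adjoint Mz * T := by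
    calc T * B = (T * W) * (adjoint M * adjoint W) := by rw [hB, mul_assoc]
      _ = adjoint T * (adjoint M * adjoint W) := by rw [hTW]
      _ = (adjoint T * adjoint M) * adjoint W := by rw [mul_assoc]
      _ = adjoint (T * Mz) * adjoint W := by rw [← adj_mul, hTM]
      _ = adjoint Mz * (adjoint T * adjoint W) := by rw [adj_mul, mul_assoc]
      _ = adjoint Mz * adjoint (W * T) := by rw [adj_mul]
      _ = adjoint Mz * T := by rw [hWT, adj_adj]
  have hBadj : adjoint B = W * (M * adjoint W) := by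
    rw [hB, adj_mul, adj_mul, adj_adj, adj_adj, mul_assoc]
  -- the invertible operator `1 - conj b S`
  set t : H2 →L[ℂ] H2 := conj b • Mz with ht
  have htn : ‖t‖ < 1 := by
    rw [ht, norm_smul, RCLike.norm_conj]
    calc ‖b‖ * ‖Mz‖ ≤ ‖b‖ * 1 := by gcongr; exact Mz_opNorm
      _ < 1 := by linarith
  set u : (H2 →L[ℂ] H2)ˣ := Units.oneSub t htn with hu
  have hu1 : (u : H2 →L[ℂ] H2) = 1 - t := rfl
  set Ai : H2 →L[ℂ] H2 := ((u⁻¹ : (H2 →L[ℂ] H2)ˣ) : H2 →L[ℂ] H2) with hAi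
  have hA1 : (1 - t) * Ai = 1 := by rw [← hu1]; exact u.mul_inv
  have hA2 : Ai * (1 - t) = 1 := by rw [← hu1]; exact u.inv_mul
  have hcomm : ∀ Z : H2 →L[ℂ] H2, Z * Mz = Mz * Z → Commute Z Ai := by
    intro Z hZ
    have h1 : Commute Z Mz := hZ
    have h2 : Commute Z (u : H2 →L[ℂ] H2) := by
      rw [hu1]
      exact (Commute.one_right Z).sub_right (h1.smul_right _)
    exact h2.units_inv_right
  have hcMz : Commute Mz Ai := hcomm Mz rfl
  set D : H2 →L[ℂ] H2 := Mz - b • (1 : H2 →L[ℂ] H2) with hD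
  have hDn : ∀ x, ‖D x‖ = ‖(1 - t) x‖ := by
    intro x
    have e1 : D x = Mz x - b • x := by simp [hD]
    have e2 : (1 - t) x = x - conj b • Mz x := by simp [ht]
    have h1 : ‖D x‖ ^ 2 = ‖(1 - t) x‖ ^ 2 := by
      rw [e1, e2, norm_sub_sq (𝕜 := ℂ), norm_sub_sq (𝕜 := ℂ), inner_smul_right, inner_smul_right,
        norm_smul, norm_smul, Mz_norm, RCLike.norm_conj]
      have h2 : RCLike.re (b * ⟪Mz x, x⟫_ℂ) = RCLike.re (conj b * ⟪x, Mz x⟫_ℂ) := by
        rw [← inner_conj_symm x (Mz x), ← map_mul, RCLike.conj_re]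
      rw [h2]
    exact (pow_left_inj₀ (norm_nonneg _) (norm_nonneg _) two_ne_zero).1 h1
  set V : H2 →L[ℂ] H2 := D * Ai with hV
  have hVn : ∀ x, ‖V x‖ = ‖x‖ := by
    intro x
    have h1 : (1 - t) (Ai x) = x := by
      rw [← mul_apply_eq_comp, hA1]; rfl
    rw [hV, mul_apply_eq_comp, hDn, h1]
  have hVV : adjoint V * V = 1 := (ContinuousLinearMap.norm_map_iff_adjoint_comp_self V).1 hVn
  have hVc : ∀ Z : H2 →L[ℂ] H2, Z * Mz = Mz * Z → Z * V = V * Z := by
    intro Z hZ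
    have h1 : Commute Z Mz := hZ
    have h2 : Commute Z D := h1.sub_right ((Commute.one_right Z).smul_right _)
    exact (h2.mul_right (hcomm Z hZ))
  set K : H2 := Ai (e 0) with hK
  have hVs : ∀ y : H2, ⟪K, y⟫_ℂ = 0 → ∃ x, V x = y := by
    intro y hy
    set y' : H2 := adjoint Ai y with hy'
    have h0 : y' 0 = 0 := by
      rw [← inner_e, hy', ContinuousLinearMap.adjoint_inner_right]; exact hy
    have h1 : Mz (adjoint Mz y') = y' := Mz_adjMz h0
    have h2 : y' - b • adjoint Mz y' = y := by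
      have h3 : adjoint (1 - t) * adjoint Ai = 1 := by rw [← adj_mul, hA2, adj_one]
      have h4 : adjoint (1 - t) = 1 - b • adjoint Mz := by
        rw [ht, map_sub, adj_one, map_smulₛₗ]
        simp
      have h5 := congrArg (fun Z : H2 →L[ℂ] H2 => Z y) h3
      simpa [h4] using h5
    refine ⟨(1 - t) (adjoint Mz y'), ?_⟩
    have h6 : Ai ((1 - t) (adjoint Mz y')) = adjoint Mz y' := by
      rw [← mul_apply_eq_comp, hA2]; rfl
    rw [hV, mul_apply_eq_comp, h6]
    have h7 : D (adjoint Mz y') = Mz (adjoint Mz y') - b • adjoint Mz y' := by simp [hD]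
    rw [h7, h1, h2]
  -- the operator `X = B (S - b)`
  set X : H2 →L[ℂ] H2 := B * D with hXd
  have hTX : T * X = adjoint Mz * ((M - b • (1 : H2 →L[ℂ] H2)) * T) := by
    rw [hXd, ← mul_assoc, hTB, mul_assoc]
    congr 1
    rw [hD, mul_sub, sub_mul, hTM]
    simp
  have hXc : X * Mz = Mz * X := by
    ext1 f
    apply hTi
    set h : H2 := (M - b • (1 : H2 →L[ℂ] H2)) (T f) with hh
    have hh0 : h 0 = 0 := by
      have e1 : h = M (T f) - b • T f := by simp [hh]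
      rw [e1, lp.coeFn_sub, Pi.sub_apply, hb0, lp.coeFn_smul, Pi.smul_apply, smul_eq_mul, sub_self]
    have l1 : T ((X * Mz) f) = adjoint Mz (M h) := by
      have e1 : T ((X * Mz) f) = (T * X * Mz) f := rfl
      rw [e1, hTX]
      have e2 : (adjoint Mz * ((M - b • (1 : H2 →L[ℂ] H2)) * T) * Mz) =
          adjoint Mz * (M * ((M - b • (1 : H2 →L[ℂ] H2)) * T)) := by
        rw [mul_assoc, mul_assoc, hTM]
        congr 1
        rw [← mul_assoc, ← mul_assoc]
        congr 1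
        rw [sub_mul, mul_sub]
        simp
      rw [e2]; rfl
    have l2 : T ((Mz * X) f) = M (adjoint Mz h) := by
      have e1 : T ((Mz * X) f) = (T * Mz * X) f := rfl
      rw [e1, hTM, mul_assoc, hTX]; rfl
    rw [l1, l2]
    have l3 : h = Mz (adjoint Mz h) := (Mz_adjMz hh0).symm
    have l4 : M h = Mz (M (adjoint Mz h)) := by
      conv_lhs => rw [l3]
      rw [← mul_apply_eq_comp, hM]; rfl
    rw [l4, ← mul_apply_eq_comp, adjMz_Mz]; rfl
  set Y : H2 →L[ℂ] H2 := X * Ai with hY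
  have hYc : Y * Mz = Mz * Y := by
    rw [hY, mul_assoc, ← hcMz.eq, ← mul_assoc, hXc, mul_assoc]
  have hYA : Y * (1 - t) = X := by rw [hY, mul_assoc, hA2, mul_one]
  have hYV : Y = B * V := by rw [hY, hXd, hV, mul_assoc]
  -- norm comparisons
  have hn1 : ∀ f : H2, ⟪K, f⟫_ℂ = 0 → ‖B f‖ = ‖Y f‖ := by
    intro f hf
    obtain ⟨x, rfl⟩ := hVs f hf
    have e1 : B (V x) = Y x := by rw [hYV]; rfl
    have e2 : Y (V x) = V (Y x) := by
      rw [← mul_apply_eq_comp, hVc Y hYc]; rfl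
    rw [e1, e2, hVn]
  have hn2 : ∀ f : H2, ⟪B K, f⟫_ℂ = 0 → ‖adjoint B f‖ = ‖adjoint Y f‖ := by
    intro f hf
    have h1 : ⟪K, adjoint B f⟫_ℂ = 0 := by
      rw [ContinuousLinearMap.adjoint_inner_right]; exact hf
    obtain ⟨x, hx⟩ := hVs _ h1
    have h2 : adjoint Y f = x := by
      rw [hYV, adj_mul, mul_apply_eq_comp, ← hx, ← mul_apply_eq_comp, hVV]; rfl
    rw [h2, ← hx, hVn]
  have hn3 : ∀ f : H2, ‖B f‖ = ‖adjoint M (adjoint W f)‖ := by
    intro f
    have : B f = W (adjoint M (adjoint W f)) := rfl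
    rw [this, hWn]
  have hn4 : ∀ f : H2, ‖adjoint B f‖ = ‖M (adjoint W f)‖ := by
    intro f
    rw [hBadj]
    have : (W * (M * adjoint W)) f = W (M (adjoint W f)) := rfl
    rw [this, hWn]
  refine ⟨Y, hYc, by rw [hYA, hTX], ?_, ?_⟩
  · obtain ⟨p, hp0, hp1, hp2⟩ := exists_pol K (B K)
    refine ⟨p, hp0, recurrence hYc _ p ?_⟩
    rw [← hn1 _ hp1, ← hn2 _ hp2, hn3, hn4]
    exact hyp_le hM _
  · obtain ⟨p, hp0, hp1, hp2⟩ := exists_pol (adjoint W K) (adjoint W (B K))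
    refine ⟨p, hp0, recurrence hM _ p ?_⟩
    set P : H2 := ∑ k ∈ Finset.range 3, p k • e k with hP
    rw [ContinuousLinearMap.adjoint_inner_left] at hp1 hp2
    have h1 : adjoint W (W P) = P := by
      rw [← mul_apply_eq_comp, hWW]; rfl
    have h2 := hn3 (W P)
    have h3 := hn4 (W P)
    rw [h1] at h2 h3
    rw [← h2, ← h3, hn1 _ hp1, hn2 _ hp2]
    exact hyp_le hYc _

end Pool.Agent.H743R2.NW
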