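import Mathlib
import Pool.Agent.H743R2.NW3

set_option autoImplicit false

open Complex Metric Set Filter MeasureTheory
open scoped Real Topology ComplexConjugate NNReal ENNReal InnerProductSpace

namespace Pool.Agent.H743R2.NW

open Pool.Agent.Helper203.Hardy
open ContinuousLinearMap (adjoint)

/-! ### complex analysis on the disc -/

theorem ana {g : ℂ → ℂ} (hg : DifferentiableOn ℂ g (ball 0 1)) : AnalyticOnNhd ℂ g (ball 0 1) :=
  hg.analyticOnNhd isOpen_ball

theorem ball_pre : IsPreconnected (ball (0 : ℂ) 1) := (convex_ball _ _).isPreconnected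

/-- product rule for zeros -/
theorem mul_zero_or {f g : ℂ → ℂ} (hf : DifferentiableOn ℂ f (ball 0 1))
    (hg : DifferentiableOn ℂ g (ball 0 1)) (h : ∀ z ∈ ball (0 : ℂ) 1, f z * g z = 0) :
    (∀ z ∈ ball (0 : ℂ) 1, f z = 0) ∨ (∀ z ∈ ball (0 : ℂ) 1, g z = 0) :=
  AnalyticOnNhd.eq_zero_or_eq_zero_of_mul_eq_zero (ana hf) (ana hg) h ball_pre

theorem exists_mul {φ : ℂ → ℂ} (hφ : DifferentiableOn ℂ φ (ball 0 1))
    (hm : ∀ z ∈ ball (0 : ℂ) 1, ‖φ z‖ ≤ 1) :
    ∃ M : H2 →L[ℂ] H2, ∀ f : H2, ∀ z ∈ ball (0 : ℂ) 1, ev (M f) z = φ z * ev f z := by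
  have hex : ∀ f : H2, ∃ F : H2, (∀ z ∈ ball (0 : ℂ) 1, ev F z = φ z * ev f z) ∧
      ‖F‖ ^ 2 ≤ ‖f‖ ^ 2 := by
    intro f
    apply exists_ev (h := fun z => φ z * ev f z) (hφ.mul (ev_diff f)) (by positivity)
    intro r h0 h1
    refine le_trans ?_ (ev_circle_le f h0 h1)
    have hcb : ∀ θ, circleMap 0 r θ ∈ ball (0 : ℂ) 1 := by
      intro θ
      rw [mem_ball_zero_iff, norm_circleMap_zero, abs_of_nonneg h0]; exact h1
    have c1 : Continuous fun θ => ev f (circleMap 0 r θ) :=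
      (ev_diff f).continuousOn.comp_continuous (continuous_circleMap 0 _) hcb
    have c2 : Continuous fun θ => φ (circleMap 0 r θ) :=
      hφ.continuousOn.comp_continuous (continuous_circleMap 0 _) hcb
    apply integral_mono (cont_integrable ((c2.mul c1).norm.pow 2))
      (cont_integrable (c1.norm.pow 2))
    intro θ
    show ‖φ (circleMap 0 r θ) * ev f (circleMap 0 r θ)‖ ^ 2 ≤ ‖ev f (circleMap 0 r θ)‖ ^ 2
    rw [norm_mul]
    have h2 := hm _ (hcb θ)
    have h3 : ‖φ (circleMap 0 r θ)‖ * ‖ev f (circleMap 0 r θ)‖ ≤ ‖ev f (circleMap 0 r θ)‖ :=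
      mul_le_of_le_one_left (norm_nonneg _) h2
    exact pow_le_pow_left₀ (by positivity) h3 2
  choose F hF1 hF2 using hex
  refine ⟨LinearMap.mkContinuous
    { toFun := F
      map_add' := fun f g => ?_
      map_smul' := fun a f => ?_ } 1 (fun f => ?_), fun f z hz => hF1 f z hz⟩
  · apply ev_injective
    intro z hz
    have hz' := mem_ball_zero_iff.1 hz
    rw [ev_add _ _ hz', hF1 _ z hz, hF1 _ z hz, hF1 _ z hz, ev_add _ _ hz']
    ring
  · apply ev_injective
    intro z hz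
    rw [RingHom.id_apply, ev_smul, hF1 _ z hz, hF1 _ z hz, ev_smul]
    ring
  · show ‖F f‖ ≤ 1 * ‖f‖
    rw [one_mul]
    exact (pow_le_pow_iff_left₀ (norm_nonneg _) (norm_nonneg _) two_ne_zero).1 (hF2 f)

theorem ev_zero (f : H2) : ev f 0 = f 0 := by
  rw [ev, tsum_eq_single 0]
  · simp
  · intro n hn
    simp [hn]

theorem ev_e0 (z : ℂ) : ev (e 0) z = 1 := by
  rw [ev, tsum_eq_single 0]
  · simp
  · intro n hn
    rw [lp.single_apply_ne _ _ _ hn, zero_mul]

theorem ev_adjMz (f : H2) {z : ℂ} (hz : ‖z‖ < 1) : ev f z = f 0 + z * ev (adjoint Mz f) z := by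
  rw [ev, (ev_summable f hz).tsum_eq_zero_add, ev, ← tsum_mul_left]
  simp only [pow_zero, mul_one]
  congr 2
  funext n
  rw [adj_Mz]
  ring

theorem inner_kernel {a : ℂ} (ha : ‖a‖ < 1) :
    ∃ k : H2, k 0 = 1 ∧ ∀ f : H2, ⟪k, f⟫_ℂ = ev f a := by
  have hs : Summable (fun n : ℕ => ‖(conj a) ^ n‖ ^ 2) := by
    have e : ∀ n : ℕ, ‖(conj a) ^ n‖ ^ 2 = (‖a‖ ^ 2) ^ n := by
      intro n
      rw [norm_pow, RCLike.norm_conj, ← pow_mul, ← pow_mul, mul_comm]
    simp only [e]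
    exact summable_geometric_of_lt_one (by positivity) (by nlinarith [norm_nonneg a])
  have hm : Memℓp (fun n : ℕ => (conj a) ^ n) 2 := by
    apply memℓp_gen
    simpa using hs
  refine ⟨⟨fun n => (conj a) ^ n, hm⟩, ?_, fun f => ?_⟩
  · show (conj a) ^ 0 = 1
    simp
  · rw [lp.inner_eq_tsum, ev]
    congr 1
    funext n
    show ⟪(conj a) ^ n, f n⟫_ℂ = _
    simp [mul_comm]

/-! ### linear fractional maps -/

/-- `φ` is linear fractional on the unit disc. -/
def IsLF (φ : ℂ → ℂ) : Prop :=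
  ∃ a b c d : ℂ, a * d - b * c ≠ 0 ∧
    ∀ z ∈ ball (0 : ℂ) 1, c * z + d ≠ 0 ∧ φ z = (a * z + b) / (c * z + d)

/-- `φ` is constant on the unit disc. -/
def IsConstDisc (φ : ℂ → ℂ) : Prop := ∃ w, ∀ z ∈ ball (0 : ℂ) 1, φ z = w

theorem quad_zero {c0 c1 c2 : ℂ} (h : ∀ z ∈ ball (0 : ℂ) 1, c0 + c1 * z + c2 * z ^ 2 = 0) :
    c0 = 0 ∧ c1 = 0 ∧ c2 = 0 := by
  have h0 := h 0 (by simp)
  have h1 := h (1 / 2) (by rw [mem_ball_zero_iff]; norm_num)
  have h2 := h (-(1 / 2)) (by rw [mem_ball_zero_iff, norm_neg]; norm_num)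
  have e0 : c0 = 0 := by simpa using h0
  have e2 : c2 = 0 := by linear_combination 2 * h1 + 2 * h2 - 4 * h0
  refine ⟨e0, ?_, e2⟩
  linear_combination h1 - h2

section

variable {φ : ℂ → ℂ} (hφ : DifferentiableOn ℂ φ (ball 0 1)) (hc : ¬ IsConstDisc φ)

include hφ hc

theorem lf_of_linear {a b c d : ℂ} (h : ∀ z ∈ ball (0 : ℂ) 1, φ z * (c * z + d) = a * z + b)
    (hcd : ¬ (c = 0 ∧ d = 0)) : IsLF φ := by
  have hdet : a * d - b * c ≠ 0 := by
    intro hdet
    -- then `(a, b) = l (c, d)`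
    obtain ⟨l, hl1, hl2⟩ : ∃ l, a = l * c ∧ b = l * d := by
      by_cases hc0 : c = 0
      · have hd0 : d ≠ 0 := fun hd => hcd ⟨hc0, hd⟩
        refine ⟨b / d, ?_, by field_simp⟩
        have : a * d = 0 := by linear_combination hdet + b * hc0
        rcases mul_eq_zero.1 this with h1 | h1
        · rw [h1, hc0, mul_zero]
        · exact absurd h1 hd0
      · refine ⟨a / c, by field_simp, ?_⟩
        field_simp
        linear_combination -hdet
    have h1 : ∀ z ∈ ball (0 : ℂ) 1, (φ z - l) * (c * z + d) = 0 := by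
      intro z hz
      have := h z hz
      rw [hl1, hl2] at this
      linear_combination this
    rcases mul_zero_or (hφ.sub_const l) (by fun_prop) h1 with h2 | h2
    · exact hc ⟨l, fun z hz => sub_eq_zero.1 (h2 z hz)⟩
    · have h3 := quad_zero (c0 := d) (c1 := c) (c2 := 0) (fun z hz => by
        have := h2 z hz
        linear_combination this)
      exact hcd ⟨h3.2.1, h3.1⟩
  refine ⟨a, b, c, d, hdet, fun z hz => ?_⟩
  have hne : c * z + d ≠ 0 := by
    intro h0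
    have h1 := h z hz
    rw [h0, mul_zero] at h1
    apply hdet
    linear_combination c * h1 + a * h0
  exact ⟨hne, by rw [eq_div_iff hne]; exact h z hz⟩

end

end Pool.Agent.H743R2.NW
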