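import Mathlib
import Pool.Agent.H743R2.NW4

set_option autoImplicit false

open Complex Metric Set Filter MeasureTheory
open scoped Real Topology ComplexConjugate NNReal ENNReal InnerProductSpace

namespace Pool.Agent.H743R2.NW

open Pool.Agent.Helper203.Hardy
open ContinuousLinearMap (adjoint)

section

variable {φ : ℂ → ℂ} (hφ : DifferentiableOn ℂ φ (ball 0 1)) (hc : ¬ IsConstDisc φ)

include hφ hc

theorem image_open {s : Set ℂ} (hs : s ⊆ ball 0 1) (hso : IsOpen s) : IsOpen (φ '' s) :=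
  ((ana hφ).is_constant_or_isOpen ball_pre).resolve_left hc s hs hso

theorem comp_quad_zero {c0 c1 c2 : ℂ}
    (h : ∀ z ∈ ball (0 : ℂ) 1, c0 + c1 * φ z + c2 * φ z ^ 2 = 0) : c0 = 0 ∧ c1 = 0 ∧ c2 = 0 := by
  have ho := image_open hφ hc (s := ball 0 1) subset_rfl isOpen_ball
  have h0 : φ 0 ∈ φ '' ball 0 1 := ⟨0, by simp, rfl⟩
  obtain ⟨ε, hε, hsub⟩ := Metric.isOpen_iff.1 ho _ h0
  set w := φ 0 with hw
  set δ : ℂ := ((ε / 2 : ℝ) : ℂ) with hδ
  have hδn : ‖δ‖ = ε / 2 := by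
    rw [hδ, Complex.norm_real, Real.norm_of_nonneg (by positivity)]
  have hδ0 : δ ≠ 0 := by
    intro h0
    rw [h0, norm_zero] at hδn
    linarith
  have hv : ∀ v ∈ ball w ε, c0 + c1 * v + c2 * v ^ 2 = 0 := by
    intro v hv
    obtain ⟨z, hz, rfl⟩ := hsub hv
    exact h z hz
  have e0 := hv w (by simp [hε])
  have e1 := hv (w + δ) (by
    rw [mem_ball, dist_eq_norm, add_sub_cancel_left, hδn]; linarith)
  have e2 := hv (w - δ) (by
    rw [mem_ball, dist_eq_norm, sub_sub_cancel_left, norm_neg, hδn]; linarith)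
  have hc2 : c2 = 0 := by
    have : c2 * (2 * δ ^ 2) = 0 := by linear_combination e1 + e2 - 2 * e0
    rcases mul_eq_zero.1 this with h1 | h1
    · exact h1
    · exact absurd h1 (mul_ne_zero two_ne_zero (pow_ne_zero 2 hδ0))
  have hc1 : c1 = 0 := by
    have : c1 * (2 * δ) = 0 := by
      rw [hc2] at e1 e2
      linear_combination e1 - e2
    rcases mul_eq_zero.1 this with h1 | h1
    · exact h1
    · exact absurd h1 (by simp [hδ0])
  refine ⟨?_, hc1, hc2⟩
  rw [hc1, hc2] at e0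
  linear_combination e0

theorem alg {p0 p1 p2 q0 q1 q2 r0 r1 r2 s0 s1 s2 b : ℂ} (hb : ‖b‖ < 1)
    (hm : ∀ z ∈ ball (0 : ℂ) 1, ‖φ z‖ < 1)
    (hq : ¬ (q0 = 0 ∧ q1 = 0 ∧ q2 = 0)) (hs : ¬ (s0 = 0 ∧ s1 = 0 ∧ s2 = 0))
    (h1 : ∀ z ∈ ball (0 : ℂ) 1, φ z * (q0 + q1 * z + q2 * z ^ 2) = p0 + p1 * z + p2 * z ^ 2)
    (h2 : ∀ z ∈ ball (0 : ℂ) 1,
      z * (1 - conj b * φ z) * (r0 + r1 * φ z + r2 * φ z ^ 2) =
        (φ z - b) * (s0 + s1 * φ z + s2 * φ z ^ 2)) : IsLF φ := by
  by_cases hA : p2 = 0 ∧ q2 = 0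
  · refine lf_of_linear hφ hc (a := p1) (b := p0) (c := q1) (d := q0) (fun z hz => ?_) ?_
    · have := h1 z hz
      rw [hA.1, hA.2] at this
      linear_combination this
    · rintro ⟨h3, h4⟩
      exact hq ⟨h4, h3, hA.2⟩
  -- a generic point
  have hgen : ∃ z ∈ ball (0 : ℂ) 1, q0 + q1 * z + q2 * z ^ 2 ≠ 0 ∧
      r0 + r1 * φ z + r2 * φ z ^ 2 ≠ 0 ∧ p2 - φ z * q2 ≠ 0 ∧
      (p1 + 2 * p2 * z) * (q0 + q1 * z + q2 * z ^ 2) -
        (p0 + p1 * z + p2 * z ^ 2) * (q1 + 2 * q2 * z) ≠ 0 := by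
    by_contra hcon
    push Not at hcon
    have hprod : ∀ z ∈ ball (0 : ℂ) 1, (q0 + q1 * z + q2 * z ^ 2) *
        ((r0 + r1 * φ z + r2 * φ z ^ 2) * ((p2 - φ z * q2) *
        ((p1 + 2 * p2 * z) * (q0 + q1 * z + q2 * z ^ 2) -
        (p0 + p1 * z + p2 * z ^ 2) * (q1 + 2 * q2 * z)))) = 0 := by
      intro z hz
      by_contra h0
      rw [mul_eq_zero, mul_eq_zero, mul_eq_zero] at h0
      push Not at h0
      exact h0.2.2.2 (hcon z hz h0.1 h0.2.1 h0.2.2.1)
    have d1 : DifferentiableOn ℂ (fun z : ℂ => q0 + q1 * z + q2 * z ^ 2) (ball 0 1) := by fun_prop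
    have d2 : DifferentiableOn ℂ (fun z : ℂ => r0 + r1 * φ z + r2 * φ z ^ 2) (ball 0 1) := by
      fun_prop
    have d3 : DifferentiableOn ℂ (fun z : ℂ => p2 - φ z * q2) (ball 0 1) := by fun_prop
    have d4 : DifferentiableOn ℂ (fun z : ℂ => (p1 + 2 * p2 * z) * (q0 + q1 * z + q2 * z ^ 2) -
        (p0 + p1 * z + p2 * z ^ 2) * (q1 + 2 * q2 * z)) (ball 0 1) := by fun_prop
    rcases mul_zero_or d1 (d2.mul (d3.mul d4)) hprod with h3 | h3
    · exact hq (quad_zero h3)
    rcases mul_zero_or d2 (d3.mul d4) h3 with h3 | h3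
    · have h4 : ∀ z ∈ ball (0 : ℂ) 1, (φ z - b) * (s0 + s1 * φ z + s2 * φ z ^ 2) = 0 := by
        intro z hz
        rw [← h2 z hz, h3 z hz, mul_zero]
      rcases mul_zero_or (hφ.sub_const b) (by fun_prop) h4 with h5 | h5
      · exact hc ⟨b, fun z hz => sub_eq_zero.1 (h5 z hz)⟩
      · exact hs (comp_quad_zero hφ hc h5)
    rcases mul_zero_or d3 d4 h3 with h3 | h3
    · by_cases hq2 : q2 = 0
      · refine hA ⟨?_, hq2⟩
        have := h3 0 (by simp)
        rw [hq2, mul_zero, sub_zero] at this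
        exact this
      · refine hc ⟨p2 / q2, fun z hz => ?_⟩
        rw [eq_div_iff hq2]
        linear_combination -(h3 z hz)
    · have h4 := quad_zero (c0 := p1 * q0 - p0 * q1) (c1 := 2 * (p2 * q0 - p0 * q2))
        (c2 := p2 * q1 - p1 * q2) (fun z hz => by
          have := h3 z hz
          linear_combination this)
      obtain ⟨g1, g2, g3⟩ := h4
      have g2' : p2 * q0 - p0 * q2 = 0 := by
        rcases mul_eq_zero.1 g2 with h | h
        · norm_num at h
        · exact h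
      have hl : ∃ l, p0 = l * q0 ∧ p1 = l * q1 ∧ p2 = l * q2 := by
        by_cases hq0 : q0 = 0
        · by_cases hq1 : q1 = 0
          · have hq2 : q2 ≠ 0 := fun h => hq ⟨hq0, hq1, h⟩
            refine ⟨p2 / q2, ?_, ?_, by field_simp⟩
            · field_simp; linear_combination -g2'
            · field_simp; linear_combination -g3
          · refine ⟨p1 / q1, ?_, by field_simp, ?_⟩
            · field_simp; linear_combination -g1
            · field_simp; linear_combination g3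
        · refine ⟨p0 / q0, by field_simp, ?_, ?_⟩
          · field_simp; linear_combination g1
          · field_simp; linear_combination g2'
      obtain ⟨l, l0, l1, l2⟩ := hl
      have h5 : ∀ z ∈ ball (0 : ℂ) 1, (φ z - l) * (q0 + q1 * z + q2 * z ^ 2) = 0 := by
        intro z hz
        have := h1 z hz
        rw [l0, l1, l2] at this
        linear_combination this
      rcases mul_zero_or (hφ.sub_const l) d1 h5 with h6 | h6
      · exact hc ⟨l, fun z hz => sub_eq_zero.1 (h6 z hz)⟩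
      · exact hq (quad_zero h6)
  obtain ⟨z0, hz0, g1, g2, g3, g4⟩ := hgen
  set v := φ z0 with hv
  -- the identity on the whole plane
  set D : ℂ → ℂ := fun z =>
    z * ((q0 + q1 * z + q2 * z ^ 2) - conj b * (p0 + p1 * z + p2 * z ^ 2)) *
      (r0 * (q0 + q1 * z + q2 * z ^ 2) ^ 2 +
        r1 * (p0 + p1 * z + p2 * z ^ 2) * (q0 + q1 * z + q2 * z ^ 2) +
        r2 * (p0 + p1 * z + p2 * z ^ 2) ^ 2) -
    ((p0 + p1 * z + p2 * z ^ 2) - b * (q0 + q1 * z + q2 * z ^ 2)) *
      (s0 * (q0 + q1 * z + q2 * z ^ 2) ^ 2 +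
        s1 * (p0 + p1 * z + p2 * z ^ 2) * (q0 + q1 * z + q2 * z ^ 2) +
        s2 * (p0 + p1 * z + p2 * z ^ 2) ^ 2) with hD
  have hDb : ∀ z ∈ ball (0 : ℂ) 1, D z = 0 := by
    intro z hz
    simp only [hD]
    rw [← h1 z hz]
    linear_combination (q0 + q1 * z + q2 * z ^ 2) ^ 3 * h2 z hz
  have hDan : AnalyticOnNhd ℂ D univ := by
    have : Differentiable ℂ D := by fun_prop
    exact this.differentiableOn.analyticOnNhd isOpen_univ
  have hDall : ∀ z, D z = 0 := by
    intro z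
    refine hDan.eqOn_zero_of_preconnected_of_eventuallyEq_zero isPreconnected_univ
      (mem_univ (0 : ℂ)) ?_ (mem_univ z)
    filter_upwards [ball_mem_nhds (0 : ℂ) one_pos] with x hx
    exact hDb x hx
  set e1 := p1 - v * q1 with he1
  set e2 := p2 - v * q2 with he2
  set z1 := -e1 / e2 - z0 with hz1
  have hz1' : e1 + e2 * (z1 + z0) = 0 := by
    rw [hz1]; field_simp; ring
  have hroot0 : (p0 - v * q0) + e1 * z0 + e2 * z0 ^ 2 = 0 := by
    rw [he1, he2]
    linear_combination -(h1 z0 hz0)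
  have hroot1 : (p0 - v * q0) + e1 * z1 + e2 * z1 ^ 2 = 0 := by
    linear_combination hroot0 + (z1 - z0) * hz1'
  have hP1 : p0 + p1 * z1 + p2 * z1 ^ 2 = v * (q0 + q1 * z1 + q2 * z1 ^ 2) := by
    rw [he1, he2] at hroot1
    linear_combination hroot1
  by_cases hQ1 : q0 + q1 * z1 + q2 * z1 ^ 2 = 0
  · rw [hQ1, mul_zero] at hP1
    have h3 : ∀ z ∈ ball (0 : ℂ) 1, (z - z1) *
        (φ z * (q2 * z + (q1 + q2 * z1)) - (p2 * z + (p1 + p2 * z1))) = 0 := by
      intro z hz
      linear_combination h1 z hz - φ z * hQ1 + hP1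
    rcases mul_zero_or (f := fun z => z - z1) (by fun_prop) (by fun_prop) h3 with h4 | h4
    · have a1 := h4 0 (by simp)
      have a2 := h4 (1 / 2) (by rw [mem_ball_zero_iff]; norm_num)
      exfalso
      have : (1 / 2 : ℂ) = 0 := by linear_combination a2 - a1
      norm_num at this
    · refine lf_of_linear hφ hc (a := p2) (b := p1 + p2 * z1) (c := q2) (d := q1 + q2 * z1)
        (fun z hz => sub_eq_zero.1 (h4 z hz)) ?_
      rintro ⟨h5, h6⟩
      apply g1
      linear_combination hQ1 + (z0 - z1) * (z0 * h5 + h6)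
  · exfalso
    have h3 := hDall z1
    simp only [hD] at h3
    rw [hP1] at h3
    have h4 : (q0 + q1 * z1 + q2 * z1 ^ 2) ^ 3 *
        (z1 * (1 - conj b * v) * (r0 + r1 * v + r2 * v ^ 2) -
          (v - b) * (s0 + s1 * v + s2 * v ^ 2)) = 0 := by
      linear_combination h3
    have h5 : z1 * (1 - conj b * v) * (r0 + r1 * v + r2 * v ^ 2) -
          (v - b) * (s0 + s1 * v + s2 * v ^ 2) = 0 := by
      rcases mul_eq_zero.1 h4 with h | h
      · exact absurd (pow_eq_zero_iff (by norm_num) |>.1 h) hQ1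
      · exact h
    have h6 : (z1 - z0) * ((1 - conj b * v) * (r0 + r1 * v + r2 * v ^ 2)) = 0 := by
      linear_combination h5 - h2 z0 hz0
    have h7 : 1 - conj b * v ≠ 0 := by
      intro h0
      have h8 : ‖conj b * v‖ < 1 := by
        rw [norm_mul, RCLike.norm_conj]
        have := hm z0 hz0
        nlinarith [norm_nonneg b, norm_nonneg v]
      rw [← sub_eq_zero.1 h0, norm_one] at h8
      exact lt_irrefl _ h8
    have h8 : z1 = z0 := by
      rcases mul_eq_zero.1 h6 with h | h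
      · exact sub_eq_zero.1 h
      · exact absurd h (mul_ne_zero h7 g2)
    rw [h8] at hz1'
    apply g4
    have h9 := h1 z0 hz0
    rw [← hv] at h9
    rw [← h9]
    rw [he1, he2] at hz1'
    linear_combination (q0 + q1 * z0 + q2 * z0 ^ 2) * hz1'

end

end Pool.Agent.H743R2.NW
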