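import Mathlib
import Pool.Agent.H743R2.NW5

set_option autoImplicit false

open Complex Metric Set Filter MeasureTheory
open scoped Real Topology ComplexConjugate NNReal ENNReal InnerProductSpace

namespace Pool.Agent.H743R2.NW

open Pool.Agent.Helper203.Hardy
open ContinuousLinearMap (adjoint)

theorem rational_of_rec (f : H2) {p : ℕ → ℂ} (hp : ∃ k < 3, p k ≠ 0)
    (h : ∀ j : ℕ, ∑ k ∈ Finset.range 3, p k * conj (f (k + j + 1)) = 0) :
    ∃ p0 p1 p2 q0 q1 q2 : ℂ, ¬ (q0 = 0 ∧ q1 = 0 ∧ q2 = 0) ∧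
      ∀ z ∈ ball (0 : ℂ) 1, ev f z * (q0 + q1 * z + q2 * z ^ 2) = p0 + p1 * z + p2 * z ^ 2 := by
  refine ⟨conj (p 2) * f 0, conj (p 2) * f 1 + conj (p 1) * f 0,
    conj (p 2) * f 2 + conj (p 1) * f 1 + conj (p 0) * f 0, conj (p 2), conj (p 1), conj (p 0),
    ?_, ?_⟩
  · rintro ⟨h2, h1, h0⟩
    rw [map_eq_zero] at h2 h1 h0
    obtain ⟨k, hk, hk0⟩ := hp
    interval_cases k
    · exact hk0 h0
    · exact hk0 h1
    · exact hk0 h2
  · intro z hz
    have hz' := mem_ball_zero_iff.1 hz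
    set f1 : H2 := adjoint Mz f with hf1
    set f2 : H2 := adjoint Mz f1 with hf2
    set f3 : H2 := adjoint Mz f2 with hf3
    have a1 : ∀ n, f1 n = f (n + 1) := fun n => adj_Mz f n
    have a2 : ∀ n, f2 n = f (n + 2) := fun n => by rw [hf2, adj_Mz, a1]
    have a3 : ∀ n, f3 n = f (n + 3) := fun n => by rw [hf3, adj_Mz, a2]
    have e1 := ev_adjMz f hz'
    have e2 := ev_adjMz f1 hz'
    have e3 := ev_adjMz f2 hz'
    rw [← hf1] at e1
    rw [← hf2, a1] at e2
    rw [← hf3, a2] at e3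
    have h0 : conj (p 0) • f1 + conj (p 1) • f2 + conj (p 2) • f3 = 0 := by
      ext n
      have := congrArg conj (h n)
      rw [Finset.sum_range_succ, Finset.sum_range_succ, Finset.sum_range_one] at this
      simp only [map_add, map_mul, Complex.conj_conj, map_zero] at this
      rw [lp.coeFn_add, lp.coeFn_add, Pi.add_apply, Pi.add_apply, lp.coeFn_smul, lp.coeFn_smul,
        lp.coeFn_smul, Pi.smul_apply, Pi.smul_apply, Pi.smul_apply, a1, a2, a3]
      simp only [smul_eq_mul, lp.coeFn_zero, Pi.zero_apply]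
      have i1 : 0 + n + 1 = n + 1 := by omega
      have i2 : 1 + n + 1 = n + 2 := by omega
      have i3 : 2 + n + 1 = n + 3 := by omega
      rw [i1, i2, i3] at this
      exact this
    have h1 : conj (p 0) * ev f1 z + conj (p 1) * ev f2 z + conj (p 2) * ev f3 z = 0 := by
      have h2 : ev (conj (p 0) • f1 + conj (p 1) • f2 + conj (p 2) • f3) z = ev 0 z := by rw [h0]
      rw [ev_add _ _ hz', ev_add _ _ hz', ev_smul, ev_smul, ev_smul] at h2
      rw [h2]
      simp [ev]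
    simp only [zero_add] at e2 e3
    linear_combination (conj (p 2) + conj (p 1) * z + conj (p 0) * z ^ 2) * e1 +
      z * (conj (p 2) + conj (p 1) * z) * e2 + z ^ 2 * conj (p 2) * e3 + z ^ 3 * h1

/-- **Main theorem.**  A nonzero normal weighted composition operator on `H²` with nonconstant
composition symbol has a linear fractional composition symbol. -/
theorem normal_lf {φ ψ : ℂ → ℂ} (hφ : DifferentiableOn ℂ φ (ball 0 1))
    (hm : MapsTo φ (ball (0 : ℂ) 1) (ball 0 1)) (hψ : DifferentiableOn ℂ ψ (ball 0 1))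
    (hψ0 : ¬ ∀ z ∈ ball (0 : ℂ) 1, ψ z = 0) (hc : ¬ IsConstDisc φ) (T : H2 →L[ℂ] H2)
    (hT : ∀ f : H2, ∀ z ∈ ball (0 : ℂ) 1, ev (T f) z = ψ z * ev f (φ z))
    (hTn : IsStarNormal T) : IsLF φ := by
  have hm' : ∀ z ∈ ball (0 : ℂ) 1, ‖φ z‖ < 1 := fun z hz => mem_ball_zero_iff.1 (hm hz)
  -- injectivity
  have hTi : Function.Injective T := by
    rw [injective_iff_map_eq_zero]
    intro f hf
    have h1 : ∀ z ∈ ball (0 : ℂ) 1, ψ z * ev f (φ z) = 0 := by
      intro z hz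
      rw [← hT f z hz, hf]
      simp [ev]
    rcases mul_zero_or hψ ((ev_diff f).comp hφ hm) h1 with h2 | h2
    · exact absurd h2 hψ0
    · have ho := image_open hφ hc (s := ball 0 1) subset_rfl isOpen_ball
      have h0 : φ 0 ∈ φ '' ball 0 1 := ⟨0, by simp, rfl⟩
      have h3 : EqOn (ev f) 0 (ball 0 1) := by
        refine (ana (ev_diff f)).eqOn_zero_of_preconnected_of_eventuallyEq_zero ball_pre
          (hm (mem_ball_self one_pos)) ?_
        filter_upwards [ho.mem_nhds h0] with w hw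
        obtain ⟨z, hz, rfl⟩ := hw
        exact h2 z hz
      apply ev_injective
      intro z hz
      rw [h3 hz]
      simp [ev]
  have hψne : ∀ z ∈ ball (0 : ℂ) 1, ψ z ≠ 0 := by
    intro z hz h0
    obtain ⟨k, hk0, hk⟩ := inner_kernel (mem_ball_zero_iff.1 hz)
    have h1 : adjoint T k = 0 := by
      apply ext_inner_right ℂ
      intro f
      rw [ContinuousLinearMap.adjoint_inner_left, hk, hT f z hz, h0, zero_mul, inner_zero_left]
    have h2 : ‖T k‖ = 0 := by
      rw [ContinuousLinearMap.isStarNormal_iff_norm_eq_adjoint.1 hTn k, h1, norm_zero]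
    have h3 : k = 0 := by
      apply hTi
      rw [norm_eq_zero.1 h2, map_zero]
    rw [h3] at hk0
    simp at hk0
  obtain ⟨M, hMev⟩ := exists_mul hφ (fun z hz => (hm' z hz).le)
  have hTM : T * Mz = M * T := by
    ext1 f
    apply ev_injective
    intro z hz
    rw [mul_apply_eq_comp, mul_apply_eq_comp, hT _ z hz, ev_Mz _ (hm' z hz), hMev _ z hz, hT _ z hz]
    ring
  have hM : M * Mz = Mz * M := by
    ext1 f
    apply ev_injective
    intro z hz
    have hz' := mem_ball_zero_iff.1 hz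
    rw [mul_apply_eq_comp, mul_apply_eq_comp, hMev _ z hz, ev_Mz _ hz', ev_Mz _ hz', hMev _ z hz]
    ring
  have hball0 : (0 : ℂ) ∈ ball (0 : ℂ) 1 := mem_ball_self one_pos
  have hb : ‖φ 0‖ < 1 := hm' 0 hball0
  have hb0 : ∀ f : H2, (M f) 0 = φ 0 * f 0 := by
    intro f
    rw [← ev_zero, hMev _ 0 hball0, ev_zero]
  obtain ⟨Y, hYc, hTY, ⟨p, hp, hrec⟩, ⟨p', hp', hrec'⟩⟩ := core T M hTn hTi hTM hM hb hb0
  obtain ⟨r0, r1, r2, s0, s1, s2, hs, hγ⟩ := rational_of_rec _ hp hrec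
  obtain ⟨p0, p1, p2, q0, q1, q2, hq, hφr⟩ := rational_of_rec _ hp' hrec'
  have hMe : ∀ z ∈ ball (0 : ℂ) 1, ev (M (e 0)) z = φ z := by
    intro z hz
    rw [hMev _ z hz, ev_e0, mul_one]
  -- the functional equation
  have hfun : ∀ z ∈ ball (0 : ℂ) 1,
      z * (1 - conj (φ 0) * φ z) * ev (Y (e 0)) (φ z) = φ z - φ 0 := by
    intro z hz
    have hz' := mem_ball_zero_iff.1 hz
    have h1 : T ((Y * (1 - conj (φ 0) • Mz)) (e 0)) =
        adjoint Mz ((M - φ 0 • (1 : H2 →L[ℂ] H2)) (T (e 0))) := by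
      have := congrArg (fun Z : H2 →L[ℂ] H2 => Z (e 0)) hTY
      exact this
    have h2 : (Y * (1 - conj (φ 0) • Mz)) (e 0) = Y (e 0) - conj (φ 0) • Mz (Y (e 0)) := by
      have h3 : (Y * (1 - conj (φ 0) • Mz)) = (1 - conj (φ 0) • Mz) * Y := by
        rw [mul_sub, sub_mul, mul_one, one_mul, mul_smul_comm, smul_mul_assoc, hYc]
      rw [h3]
      rfl
    have h4 : ev (T ((Y * (1 - conj (φ 0) • Mz)) (e 0))) z =
        ψ z * ((1 - conj (φ 0) * φ z) * ev (Y (e 0)) (φ z)) := by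
      rw [hT _ z hz, h2, ev_sub _ _ (hm' z hz), ev_smul, ev_Mz _ (hm' z hz)]
      ring
    set g : H2 := (M - φ 0 • (1 : H2 →L[ℂ] H2)) (T (e 0)) with hg
    have hge : g = M (T (e 0)) - φ 0 • T (e 0) := by simp [hg]
    have hg0 : g 0 = 0 := by
      rw [hge, lp.coeFn_sub, Pi.sub_apply, hb0, lp.coeFn_smul, Pi.smul_apply, smul_eq_mul, sub_self]
    have hgz : ev g z = (φ z - φ 0) * ψ z := by
      rw [hge, ev_sub _ _ hz', ev_smul, hMev _ z hz, hT _ z hz, ev_e0]
      ring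
    have h5 := ev_adjMz g hz'
    rw [hg0, hgz, ← h1, h4] at h5
    have h6 : ψ z * (z * (1 - conj (φ 0) * φ z) * ev (Y (e 0)) (φ z) - (φ z - φ 0)) = 0 := by
      linear_combination -h5
    rcases mul_eq_zero.1 h6 with h | h
    · exact absurd h (hψne z hz)
    · exact sub_eq_zero.1 h
  refine alg hφ hc hb hm' hq hs (p0 := p0) (p1 := p1) (p2 := p2) (r0 := r0) (r1 := r1)
    (r2 := r2) (fun z hz => ?_) (fun z hz => ?_)
  · rw [← hMe z hz]
    exact hφr z hz
  · have h1 := hγ (φ z) (hm hz)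
    have h2 := hfun z hz
    linear_combination (s0 + s1 * φ z + s2 * φ z ^ 2) * h2 -
      z * (1 - conj (φ 0) * φ z) * h1

end Pool.Agent.H743R2.NW
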